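import Mathlib

set_option autoImplicit false

namespace Pool.Agent.H.MP_7ac2f5_co

open Filter Topology Submodule

lemma expsum {K : Type} [Fintype K] (A X : K → ℝ) (hX : ∀ k, 0 < X k)
    (hinj : Function.Injective X) (h : ∃ k, A k ≠ 0) :
    ∀ᶠ t : ℝ in atTop, ∑ k, A k * X k ^ t ≠ 0 := by
  classical
  obtain ⟨k0, hk0, hmax⟩ := Finset.exists_max_image (Finset.univ.filter (fun k => A k ≠ 0)) X
    (by obtain ⟨k, hk⟩ := h; exact ⟨k, by simpa using hk⟩)
  have hA : A k0 ≠ 0 := by simpa using hk0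
  have hlim : Tendsto (fun t : ℝ => ∑ k, A k * (X k / X k0) ^ t) atTop
      (𝓝 (∑ k, if k = k0 then A k0 else 0)) := by
    refine tendsto_finsetSum _ fun k _ => ?_
    by_cases hk : k = k0
    · subst hk
      simp [div_self (hX k).ne']
    · rw [if_neg hk]
      by_cases hAk : A k = 0
      · simp [hAk]
      · have h1 : X k ≤ X k0 := hmax k (by simpa using hAk)
        have h2 : X k < X k0 := lt_of_le_of_ne h1 (fun e => hk (hinj e))
        have h3 := tendsto_rpow_atTop_of_base_lt_one (X k / X k0)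
          (lt_trans (by norm_num) (div_pos (hX k) (hX k0))) ((div_lt_one (hX k0)).2 h2)
        simpa using h3.const_mul (A k)
  rw [Finset.sum_ite_eq' Finset.univ k0, if_pos (Finset.mem_univ _)] at hlim
  filter_upwards [hlim.eventually_ne hA] with t ht h0
  apply ht
  have : ∑ k, A k * (X k / X k0) ^ t = (∑ k, A k * X k ^ t) / X k0 ^ t := by
    rw [Finset.sum_div]
    refine Finset.sum_congr rfl fun k _ => ?_
    rw [Real.div_rpow (hX k).le (hX k0).le, mul_div_assoc]
  rw [this, h0, zero_div]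

lemma span_ev {D : Type} [AddCommGroup D] [Module ℝ D] [FiniteDimensional ℝ D] {ι K : Type}
    [Fintype K] (r : ι → K → D) (κ0 : ι → K)
    (h0 : span ℝ (Set.range fun i => r i (κ0 i)) = ⊤) (s x : ι → K → ℝ)
    (hs : ∀ i k, s i k ≠ 0) (hx : ∀ i k, 0 < x i k)
    (hgen : ∀ (J : Finset ι) (κ κ' : ι → K),
      ∏ i ∈ J, x i (κ i) = ∏ i ∈ J, x i (κ' i) → ∀ i ∈ J, κ i = κ' i) :
    ∀ᶠ t : ℝ in atTop,
      span ℝ (Set.range fun i => ∑ k, (s i k * x i k ^ t) • r i k) = ⊤ := by
  classical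
  obtain ⟨f, hf1, hf2, hf3⟩ := Submodule.exists_fun_fin_finrank_span_eq ℝ
    (Set.range fun i => r i (κ0 i))
  replace hf2 := hf2.trans h0
  generalize Module.finrank ℝ (span ℝ (Set.range fun i => r i (κ0 i))) = N at f hf1 hf2 hf3
  choose j hj using hf1
  have hjinj : Function.Injective j := by
    intro a b hab
    apply hf3.injective
    rw [← hj a, ← hj b, hab]
  let e : Module.Basis (Fin N) ℝ D := Module.Basis.mk hf3 hf2.ge
  have hdet : e.det f ≠ 0 := (e.is_basis_iff_det.1 ⟨hf3, hf2⟩).ne_zero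
  have hev := expsum (K := Fin N → K)
    (fun κ => (∏ a, s (j a) (κ a)) * e.det (fun a => r (j a) (κ a)))
    (fun κ => ∏ a, x (j a) (κ a)) (fun κ => Finset.prod_pos fun a _ => hx _ _)
    (by
      intro κ κ' h
      have := hgen (Finset.univ.image j) (Function.extend j κ κ0) (Function.extend j κ' κ0) (by
        rw [Finset.prod_image (fun a _ b _ h => hjinj h),
          Finset.prod_image (fun a _ b _ h => hjinj h)]
        simpa only [hjinj.extend_apply] using h)
      funext a
      simpa only [hjinj.extend_apply] using this (j a) (Finset.mem_image_of_mem _ (Finset.mem_univ _)))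
    ⟨fun a => κ0 (j a), mul_ne_zero (Finset.prod_ne_zero_iff.2 fun a _ => hs _ _) (by
      have : (fun a => r (j a) (κ0 (j a))) = f := funext hj
      rw [this]; exact hdet)⟩
  filter_upwards [hev] with t ht
  have h1 : e.det (fun a => ∑ k, (s (j a) k * x (j a) k ^ t) • r (j a) k) ≠ 0 := by
    have := e.det.toMultilinearMap.map_sum
      (fun (a : Fin N) (k : K) => (s (j a) k * x (j a) k ^ t) • r (j a) k)
    simp only [AlternatingMap.coe_multilinearMap] at this
    rw [this]
    convert ht using 2 with κ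
    rw [AlternatingMap.map_smul_univ, Finset.prod_mul_distrib,
      Real.finsetProd_rpow _ _ (fun a _ => (hx _ _).le), smul_eq_mul]
    ring
  have h2 := (e.is_basis_iff_det.2 (Ne.isUnit h1)).2
  rw [eq_top_iff, ← h2]
  apply span_mono
  rintro _ ⟨a, rfl⟩
  exact ⟨j a, rfl⟩

lemma generic {σ T : Type} [Finite T] (P : T → MvPolynomial σ ℝ)
    (h : ∀ t, ∃ z, MvPolynomial.eval z (P t) ≠ 0) : ∃ z, ∀ t, MvPolynomial.eval z (P t) ≠ 0 := by
  classical
  have := Fintype.ofFinite T
  have h1 : ∏ t, P t ≠ 0 := Finset.prod_ne_zero_iff.2 fun t _ h0 => by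
    obtain ⟨z, hz⟩ := h t
    exact hz (by rw [h0, map_zero])
  by_contra hc
  push Not at hc
  apply h1
  apply MvPolynomial.funext
  intro z
  obtain ⟨t, ht⟩ := hc z
  rw [map_prod, map_zero]
  exact Finset.prod_eq_zero (Finset.mem_univ t) ht

abbrev Pr (n : ℕ) := {i : Fin n × Fin n // i.1 < i.2}

lemma placement (n d : ℕ) : ∃ z : Fin n × Fin d → ℝ,
    (∀ (i : Pr n) k, z (i.1.1, k) - z (i.1.2, k) ≠ 0) ∧
    ∀ (J : Finset (Pr n)) (κ κ' : Pr n → Fin d),
      ∏ i ∈ J, |z (i.1.1, κ i) - z (i.1.2, κ i)| = ∏ i ∈ J, |z (i.1.1, κ' i) - z (i.1.2, κ' i)| →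
        ∀ i ∈ J, κ i = κ' i := by
  classical
  let D : Pr n → Fin d → MvPolynomial (Fin n × Fin d) ℝ := fun i k =>
    MvPolynomial.X (i.1.1, k) - MvPolynomial.X (i.1.2, k)
  obtain ⟨z, hz⟩ := generic (σ := Fin n × Fin d)
    (T := (Pr n × Fin d) ⊕ {w : Finset (Pr n) × (Pr n → Fin d) × (Pr n → Fin d) //
      ∃ i ∈ w.1, w.2.1 i ≠ w.2.2 i})
    (Sum.elim (fun a => D a.1 a.2)
      (fun w => (∏ i ∈ w.1.1, D i (w.1.2.1 i)) ^ 2 - (∏ i ∈ w.1.1, D i (w.1.2.2 i)) ^ 2))
    (by
      rintro (⟨i, k⟩ | ⟨⟨J, κ, κ'⟩, i0, hi0, hne⟩)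
      · refine ⟨fun a => (a.1 : ℝ), ?_⟩
        have : ((i.1.1 : ℕ) : ℝ) < (i.1.2 : ℕ) := by exact_mod_cast i.2
        simp only [Sum.elim_inl, D, map_sub, MvPolynomial.eval_X]
        linarith
      · refine ⟨fun a => if a = (i0.1.2, κ i0) then ((i0.1.1 : ℕ) : ℝ) else (a.1 : ℝ), ?_⟩
        simp only [Sum.elim_inr, D, map_sub, map_pow, map_prod, MvPolynomial.eval_X]
        rw [Finset.prod_eq_zero hi0]
        · rw [zero_pow two_ne_zero, zero_sub, neg_ne_zero]
          refine pow_ne_zero _ (Finset.prod_ne_zero_iff.2 fun i _ => ?_)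
          have hi := i.2
          have hi0' := i0.2
          rw [sub_ne_zero]
          split_ifs with h1 h2 h2
          · exact absurd ((Prod.ext_iff.1 h1).1.trans (Prod.ext_iff.1 h2).1.symm) hi.ne
          · have := (Prod.ext_iff.1 h1).1
            simp only at this
            have h3 : (i0.1.1 : ℕ) < i.1.2 := by rw [this] at hi; exact lt_trans hi0' hi
            exact_mod_cast h3.ne
          · obtain ⟨a1, a2⟩ := Prod.ext_iff.1 h2
            simp only at a1 a2
            intro h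
            have h4 : i.1.1 = i0.1.1 := Fin.ext (by exact_mod_cast h)
            have : i = i0 := Subtype.ext (Prod.ext h4 a1)
            subst this
            exact hne a2.symm
          · have h3 : (i.1.1 : ℕ) < i.1.2 := hi
            exact_mod_cast h3.ne
        · rw [if_pos rfl, if_neg, sub_self]
          intro h
          exact i0.2.ne (Prod.ext_iff.1 h).1)
  refine ⟨z, fun i k => by simpa [D] using hz (Sum.inl (i, k)), ?_⟩
  intro J κ κ' h
  by_contra hc
  push Not at hc
  have := hz (Sum.inr ⟨(J, κ, κ'), hc⟩)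
  simp only [Sum.elim_inr, D, map_sub, map_pow, map_prod, MvPolynomial.eval_X] at this
  apply this
  rw [sub_eq_zero, sq_eq_sq_iff_abs_eq_abs, Finset.abs_prod, Finset.abs_prod]
  exact h

lemma cyc {V : Type} [DecidableEq V] {G : SimpleGraph V} {v : V} (c : G.Walk v v)
    (hc : c.IsHamiltonianCycle) (e : Sym2 V) (f : V → ℝ)
    (hf : ∀ a b, s(a, b) ∈ c.edges → s(a, b) ≠ e → f a = f b) (a b : V) : f a = f b := by
  let H : SimpleGraph V := SimpleGraph.fromEdgeSet {x | x ∈ c.edges}
  have hH : ∀ x, x ∈ c.edges → x ∈ H.edgeSet := by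
    intro x hx
    simp only [H, SimpleGraph.edgeSet_fromEdgeSet]
    exact ⟨hx, G.not_isDiag_of_mem_edgeSet (c.edges_subset_edgeSet hx)⟩
  have walk : ∀ (H' : SimpleGraph V), (∀ a b, H'.Adj a b → f a = f b) →
      ∀ a b, H'.Reachable a b → f a = f b := by
    rintro H' h a b ⟨w⟩
    induction w with
    | nil => rfl
    | cons h1 _ ih => exact (h _ _ h1).trans ih
  have all : ∀ a b, H.Adj a b → f a = f b := by
    intro a b hab
    have h1 : s(a, b) ∈ c.edges := ((SimpleGraph.fromEdgeSet_adj _).1 hab).1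
    by_cases h2 : s(a, b) = e
    · have := (SimpleGraph.adj_and_reachable_delete_edges_iff_exists_cycle (G := H)).2
        ⟨v, c.transfer H hH, hc.isCycle.transfer hH, by simpa using h1⟩
      refine walk _ ?_ a b this.2
      intro x y hxy
      rw [SimpleGraph.deleteEdges_adj] at hxy
      exact hf x y ((SimpleGraph.fromEdgeSet_adj _).1 hxy.1).1 (by simpa [h2] using hxy.2)
    · exact hf a b h1 h2
  have r : ∀ a, H.Reachable v a := fun a =>
    ⟨(c.transfer H hH).takeUntil a (by simpa using hc.mem_support a)⟩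
  exact walk H all a b ((r a).symm.trans (r b))

end Pool.Agent.H.MP_7ac2f5_co
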