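import Pool.Agent.H.MP_7ac2f5_co.A

set_option autoImplicit false

namespace Pool.Agent.H.MP_7ac2f5_co

open Filter Topology Submodule ENNReal

lemma norm_deriv {d : ℕ} (hd : 0 < d) (q : ℝ≥0∞) [Fact (1 ≤ q)] (hq : 1 < q.toReal)
    (x : PiLp q (fun _ : Fin d => ℝ)) (hx : ∀ k, x k ≠ 0) :
    DifferentiableAt ℝ (fun y : PiLp q (fun _ : Fin d => ℝ) => ‖y‖) x ∧
    ∀ h, fderiv ℝ (fun y : PiLp q (fun _ : Fin d => ℝ) => ‖y‖) x h = 0 →
      ∑ k, x k * |x k| ^ (q.toReal - 2) * h k = 0 := by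
  have hq0 : 0 < q.toReal := by linarith
  have e : (fun y : PiLp q (fun _ : Fin d => ℝ) => ‖y‖) =
      fun y => (∑ k, |y k| ^ q.toReal) ^ (1 / q.toReal) := by
    funext y
    rw [PiLp.norm_eq_sum hq0]
    simp only [Real.norm_eq_abs]
  have h1 : HasFDerivAt (fun y : PiLp q (fun _ : Fin d => ℝ) => ∑ k, |y k| ^ q.toReal)
      (∑ k, (q.toReal * |x k| ^ (q.toReal - 2) * x k) •
        (PiLp.proj q (𝕜 := ℝ) (fun _ : Fin d => ℝ) k)) x := by
    refine HasFDerivAt.fun_sum fun k _ => ?_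
    exact (hasDerivAt_abs_rpow (x k) hq).comp_hasFDerivAt x
      (PiLp.proj q (𝕜 := ℝ) (fun _ : Fin d => ℝ) k).hasFDerivAt
  have hpos : 0 < ∑ k, |x k| ^ q.toReal :=
    Finset.sum_pos (fun k _ => Real.rpow_pos_of_pos (abs_pos.2 (hx k)) _)
      ⟨⟨0, hd⟩, Finset.mem_univ _⟩
  have h2 := h1.rpow_const (p := 1 / q.toReal) (Or.inl hpos.ne')
  rw [e]
  refine ⟨h2.differentiableAt, fun h hh => ?_⟩
  rw [h2.fderiv] at hh
  simp only [smul_apply, sum_apply, PiLp.proj_apply,
    smul_eq_mul] at hh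
  have hc : 1 / q.toReal * (∑ k, |x k| ^ q.toReal) ^ (1 / q.toReal - 1) ≠ 0 :=
    mul_ne_zero (by positivity) (Real.rpow_pos_of_pos hpos _).ne'
  have h3 := (mul_eq_zero.1 hh).resolve_left hc
  have h4 : q.toReal * ∑ k, x k * |x k| ^ (q.toReal - 2) * h k = 0 := by
    rw [← h3, Finset.mul_sum]
    exact Finset.sum_congr rfl fun k _ => by ring
  exact (mul_eq_zero.1 h4).resolve_left hq0.ne'

lemma norm2 (x : PiLp ∞ (fun _ : Fin 2 => ℝ)) : ‖x‖ = max |x 0| |x 1| := by
  rw [PiLp.norm_eq_ciSup]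
  apply le_antisymm
  · refine ciSup_le fun i => ?_
    fin_cases i
    · exact le_max_left _ _
    · exact le_max_right _ _
  · exact max_le (le_ciSup (f := fun i => ‖x i‖) (Set.finite_range _).bddAbove 0)
      (le_ciSup (f := fun i => ‖x i‖) (Set.finite_range _).bddAbove 1)

lemma inf_ne (x : PiLp ∞ (fun _ : Fin 2 => ℝ))
    (h : DifferentiableAt ℝ (fun y : PiLp ∞ (fun _ : Fin 2 => ℝ) => ‖y‖) x) : |x 0| ≠ |x 1| := by
  intro he
  obtain ⟨s, hs1, hs2⟩ : ∃ s : ℝ, |s| = 1 ∧ x 0 = s * |x 0| := by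
    rcases le_total 0 (x 0) with h | h
    · exact ⟨1, by simp, by simp [abs_of_nonneg h]⟩
    · exact ⟨-1, by simp, by simp [abs_of_nonpos h]⟩
  obtain ⟨s', hs1', hs2'⟩ : ∃ s : ℝ, |s| = 1 ∧ x 1 = s * |x 1| := by
    rcases le_total 0 (x 1) with h | h
    · exact ⟨1, by simp, by simp [abs_of_nonneg h]⟩
    · exact ⟨-1, by simp, by simp [abs_of_nonpos h]⟩
  let w : PiLp ∞ (fun _ : Fin 2 => ℝ) := WithLp.toLp ∞ ![s, -s']
  have h1 : DifferentiableAt ℝ (fun t : ℝ => x + t • w) 0 := by fun_prop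
  have h2 := DifferentiableAt.comp (0 : ℝ) (g := fun y : PiLp ∞ (fun _ : Fin 2 => ℝ) => ‖y‖)
    (by simpa using h) h1
  have h3 : ((fun y : PiLp ∞ (fun _ : Fin 2 => ℝ) => ‖y‖) ∘ fun t : ℝ => x + t • w) =
      fun t => |x 0| + |t| := by
    funext t
    simp only [Function.comp, norm2]
    have a0 : (x + t • w) 0 = s * (|x 0| + t) := by
      simp only [w, PiLp.add_apply, PiLp.smul_apply, smul_eq_mul, Matrix.cons_val_zero]
      linarith
    have a1 : (x + t • w) 1 = s' * (|x 0| - t) := by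
      simp only [w, PiLp.add_apply, PiLp.smul_apply, smul_eq_mul, Matrix.cons_val_one,
        Matrix.cons_val_zero]
      rw [he]; linarith
    rw [a0, a1, abs_mul, abs_mul, hs1, hs1', one_mul, one_mul]
    have := abs_nonneg (x 0)
    generalize |x 0| = a at *
    rcases le_total 0 t with ht | ht
    · rw [abs_of_nonneg ht, abs_of_nonneg (by linarith : 0 ≤ a + t), max_eq_left]
      exact abs_le.2 ⟨by linarith, by linarith⟩
    · rw [abs_of_nonpos ht, abs_of_nonneg (by linarith : 0 ≤ a - t), max_eq_right]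
      · ring
      · exact abs_le.2 ⟨by linarith, by linarith⟩
  rw [h3] at h2
  apply not_differentiableAt_abs_zero
  simpa using h2.add_const (-|x 0|)

lemma inf_deriv (x : PiLp ∞ (fun _ : Fin 2 => ℝ)) (k k' : Fin 2) (hx : |x k'| < |x k|)
    (h : PiLp ∞ (fun _ : Fin 2 => ℝ)) (hh : h k = 0) :
    fderiv ℝ (fun y : PiLp ∞ (fun _ : Fin 2 => ℝ) => ‖y‖) x h = 0 := by
  have hk : k' ≠ k := fun e => by rw [e] at hx; exact lt_irrefl _ hx
  have h0 : x k ≠ 0 := abs_pos.1 (lt_of_le_of_lt (abs_nonneg _) hx)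
  have ev : (fun y : PiLp ∞ (fun _ : Fin 2 => ℝ) => ‖y‖) =ᶠ[𝓝 x] fun y => |y k| := by
    have : ∀ᶠ y : PiLp ∞ (fun _ : Fin 2 => ℝ) in 𝓝 x, |y k'| < |y k| :=
      ContinuousAt.eventually_lt (by fun_prop) (by fun_prop) hx
    filter_upwards [this] with y hy
    rw [norm2]
    fin_cases k <;> fin_cases k'
    · exact absurd rfl hk
    · exact max_eq_left hy.le
    · exact max_eq_right hy.le
    · exact absurd rfl hk
  rw [ev.fderiv_eq]
  have := (hasDerivAt_abs h0).comp_hasFDerivAt x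
    (PiLp.proj ∞ (𝕜 := ℝ) (fun _ : Fin 2 => ℝ) k).hasFDerivAt
  have e : (fun y : PiLp ∞ (fun _ : Fin 2 => ℝ) => |y k|) =
    (fun x : ℝ => |x|) ∘ (PiLp.proj ∞ (𝕜 := ℝ) (fun _ : Fin 2 => ℝ) k) := rfl
  rw [e, this.fderiv]
  simp [hh]

lemma five (a b : Fin 5 → ℝ)
    (h1 : ∀ v, 2 ≤ (Finset.univ.filter (fun u => 0 < (a u - a v) * (b u - b v))).card)
    (h2 : ∀ v, 2 ≤ (Finset.univ.filter (fun u => (a u - a v) * (b u - b v) < 0)).card) : False := by
  obtain ⟨v, hv⟩ := Finite.exists_min a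
  obtain ⟨w, hw⟩ := Finite.exists_max a
  have key : ∀ v w : Fin 5, v ≠ w → b v ≤ b w →
      2 ≤ (Finset.univ.filter (fun u => b u < b v)).card →
      2 ≤ (Finset.univ.filter (fun u => b w < b u)).card → False := by
    intro v w hvw hb c1 c2
    have d1 : Disjoint (Finset.univ.filter (fun u => b u < b v))
        (Finset.univ.filter (fun u => b w < b u)) := by
      rw [Finset.disjoint_filter]; intro u _ h; linarith
    have d2 : Disjoint ((Finset.univ.filter (fun u => b u < b v)) ∪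
        (Finset.univ.filter (fun u => b w < b u))) {v, w} := by
      rw [Finset.disjoint_right]
      intro u hu
      simp only [Finset.mem_insert, Finset.mem_singleton] at hu
      rcases hu with rfl | rfl <;> simp <;> linarith
    have := Finset.card_le_univ (((Finset.univ.filter (fun u => b u < b v)) ∪
        (Finset.univ.filter (fun u => b w < b u))) ∪ {v, w})
    rw [Finset.card_union_of_disjoint d2, Finset.card_union_of_disjoint d1,
      Finset.card_pair hvw] at this
    simp at this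
    omega
  have hvw : v ≠ w := by
    rintro rfl
    obtain ⟨u, hu⟩ := Finset.card_pos.1 (lt_of_lt_of_le two_pos (h1 v))
    have := (Finset.mem_filter.1 hu).2
    rw [le_antisymm (hw u) (hv u)] at this
    simp at this
  have mono : ∀ (P Q : Fin 5 → Prop) [DecidablePred P] [DecidablePred Q], (∀ u, P u → Q u) →
      2 ≤ (Finset.univ.filter P).card → 2 ≤ (Finset.univ.filter Q).card := by
    intro P Q _ _ h hP
    exact hP.trans (Finset.card_le_card (Finset.monotone_filter_right _ fun u _ => h u))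
  have v1 := mono _ (fun u => b v < b u) (fun u hu => by
    have := hv u; by_contra hc; push Not at hc; nlinarith) (h1 v)
  have v2 := mono _ (fun u => b u < b v) (fun u hu => by
    have := hv u; by_contra hc; push Not at hc; nlinarith) (h2 v)
  have w1 := mono _ (fun u => b u < b w) (fun u hu => by
    have := hw u; by_contra hc; push Not at hc; nlinarith) (h1 w)
  have w2 := mono _ (fun u => b w < b u) (fun u hu => by
    have := hw u; by_contra hc; push Not at hc; nlinarith) (h2 w)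
  rcases le_total (b v) (b w) with h | h
  · exact key v w hvw h v2 w2
  · exact key w v hvw.symm h w1 v1

end Pool.Agent.H.MP_7ac2f5_co
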